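import Pool.Agent.W2helper40.BH.Stm

/-!
Project BH (helper40), piece EXI: independent coins exist.
-/

set_option autoImplicit false

namespace Pool.Agent.W2helper71.BH

open MeasureTheory Pool.Agent.W2helper40.BH

/-- the law of one coin -/
noncomputable def coin (q : ℝ) : Measure Bool :=
  ENNReal.ofReal q • Measure.dirac true + ENNReal.ofReal (1 - q) • Measure.dirac false

lemma coin_true (q : ℝ) : coin q {true} = ENNReal.ofReal q := by
  simp [coin]

lemma coin_false (q : ℝ) : coin q {false} = ENNReal.ofReal (1 - q) := by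
  simp [coin]

lemma coin_prob {q : ℝ} (h0 : 0 ≤ q) (h1 : q ≤ 1) : IsProbabilityMeasure (coin q) := by
  constructor
  have : ENNReal.ofReal q + ENNReal.ofReal (1 - q) = 1 := by
    rw [← ENNReal.ofReal_add h0 (by linarith)]
    simp
  simpa [coin] using this

/-- PIECE EXI -/
theorem propExi : PropExi := by
  intro p hp
  haveI : ∀ a, IsProbabilityMeasure (coin (p a)) := fun a => coin_prob (hp a).1 (hp a).2
  refine ⟨Measure.infinitePi (fun a => coin (p a)), inferInstance, ?_⟩
  intro S T hST
  classical
  have hset : {ω : ℕ → Bool | (∀ a ∈ S, ω a = true) ∧ ∀ a ∈ T, ω a = false} =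
      Set.pi ((S ∪ T : Finset ℕ) : Set ℕ) (fun a => if a ∈ S then {true} else {false}) := by
    ext ω
    simp only [Set.mem_setOf_eq, Set.mem_pi, Finset.mem_coe, Finset.mem_union]
    constructor
    · rintro ⟨h1, h2⟩ a ha
      by_cases haS : a ∈ S
      · simp [haS, h1 a haS]
      · simp [haS, h2 a (ha.resolve_left haS)]
    · intro h
      refine ⟨fun a ha => ?_, fun a ha => ?_⟩
      · simpa [ha] using h a (Or.inl ha)
      · have haS : a ∉ S := fun h' => (Finset.disjoint_left.mp hST h') ha
        simpa [haS] using h a (Or.inr ha)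
  rw [hset, Measure.infinitePi_pi _ (by intro a _; exact MeasurableSet.of_discrete),
    Finset.prod_union hST, ENNReal.ofReal_mul (Finset.prod_nonneg fun a _ => (hp a).1),
    ENNReal.ofReal_prod_of_nonneg (fun a _ => (hp a).1),
    ENNReal.ofReal_prod_of_nonneg (fun a _ => by linarith [(hp a).2])]
  congr 1
  · refine Finset.prod_congr rfl fun a ha => ?_
    rw [if_pos ha, coin_true]
  · refine Finset.prod_congr rfl fun a ha => ?_
    have haS : a ∉ S := fun h' => (Finset.disjoint_left.mp hST h') ha
    rw [if_neg haS, coin_false]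

end Pool.Agent.W2helper71.BH
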